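import Pool.Agent.TH693.MP.Main

/-!
# For every number `k` of passes, no streaming algorithm with `n polylog n` bits of memory finds
matchings with more than a `1 - 3 / 36 ^ k` fraction of the maximum number of edges

The model is in `Pool/Agent/TH693/MP/Model.lean`. The randomized algorithms considered are
arbitrary: for every outcome of a random experiment there is a deterministic algorithm, whose
memory may change in any way that depends on the pass, on the time, on the old memory and on the
edge read. The number `δ` is the success probability that is ruled out; it may be any positive
constant (in the question it is `2 / 3`).

The hard graphs are disjoint unions of small graphs, which are defined by recursion: take a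
bipartite graph which is a union of many large induced matchings, and replace each edge of it by a
copy of a hard graph for one message less. The first player holds a part for every edge, the other
player holds the index of one special matching (an index of its own for every copy), parts for its
edges, and edges that match all the other vertices to new vertices. The first message
says little about the parts that matter, since it is short and its sender does not know the index;
in particular it says little about the indices hidden in these parts, so that the second message
again says little about what matters next, and so on.
-/

set_option autoImplicit false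

namespace Pool.Agent.Results.MP_3f78b5_lc.EveryPassNumber

open Pool.Agent.TH693.MP MeasureTheory

/-- Let `k ≥ 1`, and let `C`, `c` and `δ > 0` be constants. If `n` is large enough, then for every
randomized streaming algorithm with `k` passes and `s ≤ C n (log n) ^ c` bits of memory there are a
graph `G` on `n` vertices and an order `L` of its edges for which the output is, with probability
less than `δ` only, a matching of `G` with at least `(1 - 3 / 36 ^ k) M(G)` edges, where `M(G)` is
the size of a maximum matching. -/
theorem result (k : ℕ) (hk : 1 ≤ k) (C : ℝ) (c : ℕ) (δ : ℝ) (hδ : 0 < δ) :
    ∃ n₀ : ℕ, ∀ n : ℕ, n₀ ≤ n → ∀ s : ℕ, (s : ℝ) ≤ C * n * Real.log n ^ c →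
      ∀ (Ω : Type) [MeasurableSpace Ω] (μ : Measure Ω) [IsProbabilityMeasure μ]
        (A : Ω → Alg n s),
        (∀ (G : SimpleGraph (Fin n)) (L : List (Sym2 (Fin n))), IsStream G L →
          MeasurableSet {ω | Good (1 - 3 / 36 ^ k) G ((A ω).output k L)}) →
        ∃ (G : SimpleGraph (Fin n)) (L : List (Sym2 (Fin n))), IsStream G L ∧
          μ.real {ω | Good (1 - 3 / 36 ^ k) G ((A ω).output k L)} < δ := by
  obtain ⟨n₀, h⟩ := lower_bound k hk C c δ hδ
  refine ⟨n₀, fun n hn s hs Ω _ μ _ A hA => ?_⟩
  by_contra hcon
  push Not at hcon
  exact h n hn s hs Ω μ A fun G L hL => ⟨hA G L hL, hcon G L hL⟩

end Pool.Agent.Results.MP_3f78b5_lc.EveryPassNumber
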